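import Pool.Agent.Helper95.HS.GoalsA

/-! # Packet HS DEGI: the iteration lemma of De Giorgi -/

open Filter Topology

namespace Pool.Agent.Helper46.HS

open Pool.Agent.Helper95.HS

theorem degi : S_DEGI := by
  intro C α hα
  set C' : ℝ := max C 1 with hC'
  have hC1 : 1 ≤ C' := le_max_right _ _
  have hCC : C ≤ C' := le_max_left _ _
  set q : ℝ := (2 : ℝ) ^ (-α) with hq
  have hq0 : 0 < q := Real.rpow_pos_of_pos two_pos _
  have hq1 : q < 1 := Real.rpow_lt_one_of_one_lt_of_neg one_lt_two (by linarith)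
  set S : ℝ := 2 * C' / (1 - q) with hS
  have hS0 : 0 ≤ S := by
    have : 0 < 1 - q := by linarith
    positivity
  refine ⟨S, hS0, fun m hm hanti hrec => ?_⟩
  -- the partial sums
  set s : ℕ → ℝ := fun j => 2 * C' * ∑ i ∈ Finset.range j, q ^ i with hs
  have hs0 : ∀ j, 0 ≤ s j := fun j => by
    have : 0 ≤ ∑ i ∈ Finset.range j, q ^ i := Finset.sum_nonneg (fun i _ => by positivity)
    simp only [hs]; positivity
  have hsS : ∀ j, s j ≤ S := fun j => by
    have h1 : 0 < 1 - q := by linarith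
    have h2 : ∑ i ∈ Finset.range j, q ^ i ≤ 1 / (1 - q) := by
      rw [geom_sum_eq hq1.ne, ← neg_div_neg_eq]
      have h3 : -(q - 1) = 1 - q := by ring
      rw [h3]
      apply div_le_div_of_nonneg_right _ h1.le
      have : 0 ≤ q ^ j := by positivity
      linarith
    simp only [hs, hS]
    calc 2 * C' * ∑ i ∈ Finset.range j, q ^ i ≤ 2 * C' * (1 / (1 - q)) := by
          apply mul_le_mul_of_nonneg_left h2; linarith
      _ = 2 * C' / (1 - q) := by ring
  have key : ∀ j : ℕ, m (s j) ≤ (1 / 2 : ℝ) ^ j := by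
    intro j
    induction j with
    | zero => simpa using (hm _).2
    | succ j ih =>
      have hqj : 0 < q ^ j := by positivity
      have hr : 0 < 2 * C' * q ^ j := by positivity
      have h1 := hrec (s j) (2 * C' * q ^ j) (hs0 j) hr
      have h2 : s j + 2 * C' * q ^ j = s (j + 1) := by
        simp only [hs, Finset.sum_range_succ]; ring
      rw [h2] at h1
      -- m(s j)^(1+α) ≤ 2^{-j} * q^j
      have h3 : m (s j) ^ (1 + α) ≤ (1 / 2 : ℝ) ^ j * q ^ j := by
        calc m (s j) ^ (1 + α) ≤ ((1 / 2 : ℝ) ^ j) ^ (1 + α) :=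
              Real.rpow_le_rpow (hm _).1 ih (by linarith)
          _ = (1 / 2 : ℝ) ^ j * q ^ j := by
              rw [Real.rpow_add (by positivity), Real.rpow_one]
              congr 1
              rw [hq, ← Real.rpow_natCast ((1/2 : ℝ)), ← Real.rpow_natCast ((2:ℝ) ^ (-α)),
                ← Real.rpow_mul (by norm_num), ← Real.rpow_mul (by norm_num), one_div,
                Real.inv_rpow (by norm_num), ← Real.rpow_neg (by norm_num)]
              congr 1; ring
      have h4 : C * m (s j) ^ (1 + α) ≤ C' * ((1 / 2 : ℝ) ^ j * q ^ j) := by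
        have h5 : 0 ≤ m (s j) ^ (1 + α) := Real.rpow_nonneg (hm _).1 _
        calc C * m (s j) ^ (1 + α) ≤ C' * m (s j) ^ (1 + α) :=
              mul_le_mul_of_nonneg_right hCC h5
          _ ≤ _ := mul_le_mul_of_nonneg_left h3 (by linarith)
      have h6 : 2 * C' * q ^ j * m (s (j + 1)) ≤ 2 * C' * q ^ j * (1 / 2 : ℝ) ^ (j + 1) := by
        calc 2 * C' * q ^ j * m (s (j + 1)) ≤ C' * ((1 / 2 : ℝ) ^ j * q ^ j) := le_trans h1 h4
          _ = 2 * C' * q ^ j * (1 / 2 : ℝ) ^ (j + 1) := by rw [pow_succ]; ring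
      exact le_of_mul_le_mul_left h6 hr
  have hle : ∀ j : ℕ, m S ≤ (1 / 2 : ℝ) ^ j := fun j => le_trans (hanti (hsS j)) (key j)
  have hlim : Tendsto (fun j : ℕ => (1 / 2 : ℝ) ^ j) atTop (𝓝 0) :=
    tendsto_pow_atTop_nhds_zero_of_lt_one (by norm_num) (by norm_num)
  exact le_antisymm (ge_of_tendsto' hlim hle) (hm S).1

end Pool.Agent.Helper46.HS
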