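import Pool.Agent.Helper95.HS.GoalsA

/-! # Packet HS TAU: a smooth approximation of the positive part -/

open scoped ContDiff

namespace Pool.Agent.Helper46.HS

open Pool.Agent.Helper95.HS

theorem tau : S_TAU := by
  intro η hη
  have hpos : ∀ x : ℝ, 0 < x ^ 2 + η ^ 2 := fun x => by positivity
  have hlow : ∀ x : ℝ, |x| < Real.sqrt (x ^ 2 + η ^ 2) := fun x => by
    rw [← Real.sqrt_sq_eq_abs]
    exact Real.sqrt_lt_sqrt (sq_nonneg x) (by nlinarith [sq_nonneg η, pow_pos hη 2])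
  have hup : ∀ x : ℝ, Real.sqrt (x ^ 2 + η ^ 2) ≤ |x| + η := fun x => by
    rw [Real.sqrt_le_left (by positivity)]
    have h1 : |x| ^ 2 = x ^ 2 := sq_abs x
    nlinarith [mul_nonneg (abs_nonneg x) hη.le]
  refine ⟨fun x => (x + Real.sqrt (x ^ 2 + η ^ 2)) / 2, ?_, fun x => ⟨?_, ?_, ?_⟩⟩
  · refine ContDiff.div_const (contDiff_id.add ?_) 2
    exact ContDiff.sqrt ((contDiff_id.pow 2).add contDiff_const) (fun x => (hpos x).ne')
  · have h1 := hlow x
    have h2 := neg_abs_le x
    show 0 < (x + Real.sqrt (x ^ 2 + η ^ 2)) / 2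
    linarith
  · have h1 := hlow x
    have h2 := le_abs_self x
    show x ≤ (x + Real.sqrt (x ^ 2 + η ^ 2)) / 2
    linarith
  · have h1 := hup x
    show (x + Real.sqrt (x ^ 2 + η ^ 2)) / 2 ≤ max x 0 + η
    rcases le_total 0 x with hx | hx
    · rw [max_eq_left hx]
      rw [abs_of_nonneg hx] at h1
      linarith
    · rw [max_eq_right hx]
      rw [abs_of_nonpos hx] at h1
      linarith

end Pool.Agent.Helper46.HS
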