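import Pool.Agent.Helper36.HS.GoalsL
import Pool.Agent.Helper67.SP.RegBase
import Pool.Agent.Helper93.SP.HODG

/-! # Packet HS-FNL: the smooth weak limit is an invariant solution of the linear equation -/

open Complex Metric Set Filter Topology MeasureTheory
open scoped ContDiff ComplexConjugate ComplexOrder

namespace Pool.Agent.Helper46.HS

open Pool.Agent.Helper95.Lin Pool.Agent.Helper10.SP Pool.Agent.Helper36.HS
  Pool.Agent.Helper67.SP

universe u

namespace FNL

variable {n : ℕ} {T : Set (Cn n)}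

theorem integral_cd_tc {φ : Cn n → ℂ} (hφ : TC T φ) (l : Fin n) : ∫ x, cd l φ x = 0 := by
  unfold cd
  obtain ⟨h1, h2⟩ := integral_fderiv_tc hφ (Pi.single l 1)
  obtain ⟨h3, h4⟩ := integral_fderiv_tc hφ (Pi.single l I)
  rw [integral_sub h1 (h3.const_mul I), integral_const_mul, h2, h4]
  simp

theorem cd_mul {f g : Cn n → ℂ} {x : Cn n} (hf : DifferentiableAt ℝ f x)
    (hg : DifferentiableAt ℝ g x) (l : Fin n) :
    cd l (fun y => f y * g y) x = f x * cd l g x + g x * cd l f x := by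
  unfold cd
  have := fderiv_mul hf hg
  rw [show (fun y => f y * g y) = f * g from rfl, this]
  simp
  ring

/-- Integration by parts. -/
theorem ibp_cd (hT : IsOpen T) {s φ : Cn n → ℂ} (hs : ContDiffOn ℝ ∞ s T) (hφ : TC T φ)
    (l : Fin n) : ∫ x in T, φ x * cd l s x = - ∫ x in T, s x * cd l φ x := by
  have h1 := tc_mul hT hφ hs
  have h2 := integral_cd_tc h1 l
  have h3 : ∀ x ∈ T, cd l (fun y => s y * φ y) x = s x * cd l φ x + φ x * cd l s x :=
    fun x hx => cd_mul ((hs.contDiffAt (hT.mem_nhds hx)).differentiableAt (by simp))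
      (hφ.smooth.differentiable (by simp) x) l
  have h4 : TC T (fun x => s x * cd l φ x) := tc_mul hT (tc_cd hφ l).1 hs
  have h5 : TC T (fun x => cd l s x * φ x) := tc_mul hT hφ (contDiffOn_cd hT hs l).1
  rw [← tc_setIntegral (tc_cd h1 l).1, setIntegral_congr_fun hT.measurableSet h3,
    integral_add (tc_integrable h4).integrableOn] at h2
  · exact eq_neg_of_add_eq_zero_right h2
  · have := (tc_integrable h5).integrableOn (s := T)
    refine this.congr (Eventually.of_forall fun x => ?_)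
    exact mul_comm _ _

section lim

variable {G : Type u} [Group G] {R : G → Cn n → Cn n → Prop} {φ : ℕ → Cn n → ℝ} {g : Cn n → ℂ}

theorem cphi (hφ : ∀ j, InvF T R (φ j)) {C : Set (Cn n)} (hCT : C ⊆ T) (j : ℕ) :
    ContinuousOn (fun x => (φ j x : ℂ)) C :=
  Complex.continuous_ofReal.comp_continuousOn ((hφ j).1.continuousOn.mono hCT)

/-- The limit is real. -/
theorem lim_real (hT : IsOpen T) (hφ : ∀ j, InvF T R (φ j)) (hg : ContinuousOn g T)
    (hlim : ∀ C ⊆ T, IsCompact C →
      Tendsto (fun j => ∫ x in C, ‖(φ j x : ℂ) - g x‖ ^ 2) atTop (𝓝 0)) :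
    ∀ x ∈ T, (g x).im = 0 := by
  intro x₀ hx₀
  obtain ⟨r, hr, hrT⟩ : ∃ r > 0, closedBall x₀ r ⊆ T :=
    nhds_basis_closedBall.mem_iff.1 (hT.mem_nhds hx₀)
  have hC : IsCompact (closedBall x₀ r) := isCompact_closedBall _ _
  obtain ⟨ns, -, hns⟩ := subseq (μ := volume.restrict (closedBall x₀ r))
    (a := fun j x => (φ j x : ℂ)) (f := g)
    (fun j => memLp_on hC (cphi hφ hrT j)) (memLp_on hC (hg.mono hrT)) (hlim _ hrT hC)
  have hns' := ae_restrict_of_ae_restrict_of_subset ball_subset_closedBall hns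
  have hfin := Measure.eqOn_open_of_ae_eq (μ := (volume : Measure (Cn n))) (U := ball x₀ r)
    (f := fun x => (g x).im) (g := fun _ => (0 : ℝ)) (by
      filter_upwards [hns'] with x hx
      have h1 := (Complex.continuous_im.tendsto _).comp hx
      have h2 : Tendsto (fun _ : ℕ => (0 : ℝ)) atTop (𝓝 (g x).im) := by
        refine h1.congr fun i => ?_
        simp
      exact tendsto_nhds_unique h2 tendsto_const_nhds) isOpen_ball
    (Complex.continuous_im.comp_continuousOn (hg.mono (ball_subset_closedBall.trans hrT)))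
    continuousOn_const
  exact hfin (mem_ball_self hr)

/-- The limit is invariant. -/
theorem lim_inv (hARRB : S_ARRB.{u}) (hE : Et T R) (hφ : ∀ j, InvF T R (φ j))
    (hg : ContinuousOn g T) (hlim : ∀ C ⊆ T, IsCompact C →
      Tendsto (fun j => ∫ x in C, ‖(φ j x : ℂ) - g x‖ ^ 2) atTop (𝓝 0)) :
    ∀ γ x y, R γ x y → g y = g x := by
  have hT := hE.isOpen
  intro γ x₀ y₀ hR
  obtain ⟨hb1, -, -, -, -⟩ := hARRB T R hE
  obtain ⟨U₁, τ, σ, hx₁, hU₁T, hL1, hτx, hinj, hL2, hσ⟩ := hb1 γ x₀ y₀ hR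
  obtain ⟨hU, hτ, hγ⟩ := hL1
  have hτT : ∀ x ∈ U₁, τ x ∈ T := fun x hx => (hE.mem _ _ _ (hγ x hx)).2
  obtain ⟨r', hr', hr'T⟩ : ∃ r > 0, closedBall (τ x₀) r ⊆ T :=
    nhds_basis_closedBall.mem_iff.1 (hT.mem_nhds (hτT x₀ hx₁))
  have hcont : ContinuousAt τ x₀ := (hτ.differentiableAt (hU.mem_nhds hx₁)).continuousAt
  have hset : {x | x ∈ U₁ ∧ τ x ∈ ball (τ x₀) r'} ∈ 𝓝 x₀ := by
    filter_upwards [hU.mem_nhds hx₁, hcont (ball_mem_nhds (τ x₀) hr')] with x h1 h4
    exact ⟨h1, h4⟩
  obtain ⟨r, hr, hrV⟩ := nhds_basis_closedBall.mem_iff.1 hset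
  have hC : IsCompact (closedBall x₀ r ∪ closedBall (τ x₀) r') :=
    (isCompact_closedBall _ _).union (isCompact_closedBall _ _)
  have hCT : closedBall x₀ r ∪ closedBall (τ x₀) r' ⊆ T :=
    union_subset (fun x hx => hU₁T (hrV hx).1) hr'T
  obtain ⟨ns, -, hns⟩ := subseq (μ := volume.restrict (closedBall x₀ r ∪ closedBall (τ x₀) r'))
    (a := fun j x => (φ j x : ℂ)) (f := g)
    (fun j => memLp_on hC (cphi hφ hCT j))
    (memLp_on hC (hg.mono hCT)) (hlim _ hCT hC)
  rw [ae_restrict_iff' hC.isClosed.measurableSet] at hns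
  set Z : Set (Cn n) := {x | ¬ (x ∈ closedBall x₀ r ∪ closedBall (τ x₀) r' →
    Tendsto (fun i => (φ (ns i) x : ℂ)) atTop (𝓝 (g x)))} with hZ
  have hZ0 : volume Z = 0 := hns
  have hZ1 : volume (σ '' (Z ∩ τ '' U₁)) = 0 := by
    refine addHaar_image_eq_zero_of_differentiableOn_of_addHaar_eq_zero volume ?_
      (measure_mono_null inter_subset_left hZ0)
    exact (hL2.2.1.mono inter_subset_right).restrictScalars ℝ
  have hae : ∀ᵐ x ∂(volume : Measure (Cn n)), x ∈ ball x₀ r → g x = g (τ x) := by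
    have h1 : ∀ᵐ x ∂(volume : Measure (Cn n)), x ∉ Z := measure_eq_zero_iff_ae_notMem.1 hZ0
    have h2 : ∀ᵐ x ∂(volume : Measure (Cn n)), x ∉ σ '' (Z ∩ τ '' U₁) :=
      measure_eq_zero_iff_ae_notMem.1 hZ1
    filter_upwards [h1, h2] with x hx1 hx2 hxb
    have hxc : x ∈ closedBall x₀ r := ball_subset_closedBall hxb
    obtain ⟨hxU₁, hxb'⟩ := hrV hxc
    have h3 : Tendsto (fun i => (φ (ns i) x : ℂ)) atTop (𝓝 (g x)) := by
      by_contra h
      exact hx1 fun h' => h (h' (Or.inl hxc))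
    have h4 : Tendsto (fun i => (φ (ns i) (τ x) : ℂ)) atTop (𝓝 (g (τ x))) := by
      by_contra h
      apply hx2
      refine ⟨τ x, ⟨fun h' => h (h' (Or.inr (ball_subset_closedBall hxb'))), ?_⟩, ?_⟩
      · exact mem_image_of_mem _ hxU₁
      · exact hσ x hxU₁
    refine tendsto_nhds_unique h3 (h4.congr fun i => ?_)
    rw [(hφ (ns i)).2 γ x (τ x) (hγ x hxU₁)]
  have hball : ball x₀ r ⊆ U₁ := fun x hx => (hrV (ball_subset_closedBall hx)).1
  have hfin := Measure.eqOn_open_of_ae_eq (μ := (volume : Measure (Cn n))) (U := ball x₀ r)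
    (f := g) (g := fun x => g (τ x))
    ((ae_restrict_iff' measurableSet_ball).2 hae) isOpen_ball
    (hg.mono (hball.trans hU₁T))
    (hg.comp (hτ.continuousOn.mono hball) fun x hx => hτT x (hball hx))
  have := hfin (mem_ball_self hr)
  rw [← hτx]
  exact this.symm

end lim

end FNL

open FNL in
theorem fnl (hARRB : S_ARRB.{u}) (hDETI : S_DETI.{u}) : S_FNL.{u} := by
  intro n T G _ R H hK F φ f g hF hφ hf hconv hW hg hfg
  have hT := hK.et.isOpen
  obtain ⟨hD1, hWs, hHs, -, -, hDdiv⟩ := hDETI T R H hK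
  have hlim : ∀ C ⊆ T, IsCompact C →
      Tendsto (fun j => ∫ x in C, ‖(φ j x : ℂ) - g x‖ ^ 2) atTop (𝓝 0) := by
    intro C hCT hC
    refine (hconv C hCT hC).congr fun j => ?_
    refine integral_congr_ae ?_
    filter_upwards [ae_restrict_of_ae_restrict_of_subset hCT hfg] with x hx
    rw [hx]
  have hreal := lim_real hT hφ hg.continuousOn hlim
  have hinv := lim_inv hARRB hK.et hφ hg.continuousOn hlim
  have hgv : ∀ x ∈ T, g x = (((g x).re : ℝ) : ℂ) := fun x hx =>
    Complex.ext (by simp) (by simp [hreal x hx])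
  have hvs : ContDiffOn ℝ ∞ (fun x => (g x).re) T := Complex.reCLM.contDiff.comp_contDiffOn hg
  refine ⟨fun x => (g x).re, ⟨hvs, fun γ x y h => by simp only [hinv γ x y h]⟩, ?_⟩
  -- the coefficients
  set W : Cn n → ℝ := fun x => (H x).det.re with hWdef
  have hA : ∀ k j, ContDiffOn ℝ ∞ (fun y => ((W y : ℂ) • (H y)⁻¹) k j) T := fun k j =>
    (Complex.ofRealCLM.contDiff.comp_contDiffOn hWs).mul (hHs k j)
  have hcg : ∀ k, ContDiffOn ℝ ∞ (cdb k g) T := fun k => (contDiffOn_cd hT hg k).2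
  have hAc : ∀ k j, ContDiffOn ℝ ∞ (fun y => ((W y : ℂ) • (H y)⁻¹) k j * cdb k g y) T :=
    fun k j => (hA k j).mul (hcg k)
  set D : Cn n → ℂ := fun x => (∑ k, ∑ j,
    cd j (fun y => ((W y : ℂ) • (H y)⁻¹) k j * cdb k g y) x) -
      ((W x : ℂ) * g x + ((W x * F x : ℝ) : ℂ)) with hD
  have hrhs : ContinuousOn (fun x => (W x : ℂ) * g x + ((W x * F x : ℝ) : ℂ)) T :=
    ((Complex.continuous_ofReal.comp_continuousOn hWs.continuousOn).mul hg.continuousOn).add
      (Complex.continuous_ofReal.comp_continuousOn (hWs.continuousOn.mul hF.1.continuousOn))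
  have hDc : ContinuousOn D T := by
    refine ContinuousOn.sub ?_ hrhs
    exact continuousOn_finsetSum _ fun k _ => continuousOn_finsetSum _ fun j _ =>
      (contDiffOn_cd hT (hAc k j) j).1.continuousOn
  -- the weak equation
  have hweak : ∀ ζ : Cn n → ℂ, TC T ζ → ∫ x in T, ζ x * D x = 0 := by
    intro ζ hζ
    have h1 := hW ζ ⟨hζ.smooth, hζ.cpt, hζ.sub⟩
    simp only [zero_mul, integral_zero, Finset.sum_const_zero, sub_zero] at h1
    have hφ' : ∀ k j, TC T (fun y => ((W y : ℂ) • (H y)⁻¹) k j * cd j ζ y) := fun k j =>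
      tc_mul hT (tc_cd hζ j).1 (hA k j)
    have h2 : ∫ x in T, f x * ∑ k, ∑ j, cdb k (fun y => ((W y : ℂ) • (H y)⁻¹) k j * cd j ζ y) x =
        ∫ x in T, g x * ∑ k, ∑ j, cdb k (fun y => ((W y : ℂ) • (H y)⁻¹) k j * cd j ζ y) x := by
      refine integral_congr_ae ?_
      filter_upwards [hfg] with x hx
      rw [hx]
    have h3 : ∫ x in T, ((W x : ℂ) * f x + ((W x * F x : ℝ) : ℂ)) * ζ x =
        ∫ x in T, ζ x * ((W x : ℂ) * g x + ((W x * F x : ℝ) : ℂ)) := by
      refine integral_congr_ae ?_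
      filter_upwards [hfg] with x hx
      rw [hx, mul_comm]
    have i5 : ∀ k j, IntegrableOn (fun x => g x *
        cdb k (fun y => ((W y : ℂ) • (H y)⁻¹) k j * cd j ζ y) x) T := fun k j =>
      (tc_integrable (tc_mul hT (tc_cd (hφ' k j) k).2 hg)).integrableOn
    have i6 : ∀ k j, IntegrableOn (fun x => ζ x *
        cd j (fun y => ((W y : ℂ) • (H y)⁻¹) k j * cdb k g y) x) T := fun k j => by
      refine ((tc_integrable (tc_mul hT hζ (contDiffOn_cd hT (hAc k j) j).1)).integrableOn).congr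
        (Eventually.of_forall fun x => ?_)
      exact mul_comm _ _
    have h4 : ∫ x in T, g x * ∑ k, ∑ j,
          cdb k (fun y => ((W y : ℂ) • (H y)⁻¹) k j * cd j ζ y) x =
        ∫ x in T, ζ x * ∑ k, ∑ j, cd j (fun y => ((W y : ℂ) • (H y)⁻¹) k j * cdb k g y) x := by
      simp only [Finset.mul_sum]
      rw [integral_finsetSum _ fun k _ => integrable_finsetSum _ fun j _ => i5 k j,
        integral_finsetSum _ fun k _ => integrable_finsetSum _ fun j _ => i6 k j]
      refine Finset.sum_congr rfl fun k _ => ?_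
      rw [integral_finsetSum _ fun j _ => i5 k j, integral_finsetSum _ fun j _ => i6 k j]
      refine Finset.sum_congr rfl fun j _ => ?_
      have e1 := ibp hT hg (hφ' k j) k
      have e2 := ibp_cd hT (hAc k j) hζ j
      have e3 : ∫ x in T, (((W x : ℂ) • (H x)⁻¹) k j * cd j ζ x) * cdb k g x =
          ∫ x in T, (((W x : ℂ) • (H x)⁻¹) k j * cdb k g x) * cd j ζ x := by
        refine integral_congr_ae (Eventually.of_forall fun x => ?_)
        show (((W x : ℂ) • (H x)⁻¹) k j * cd j ζ x) * cdb k g x =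
          (((W x : ℂ) • (H x)⁻¹) k j * cdb k g x) * cd j ζ x
        ring
      rw [e2, ← e3, e1, neg_neg]
    have h5 : ∫ x in T, ζ x * ∑ k, ∑ j,
        cd j (fun y => ((W y : ℂ) • (H y)⁻¹) k j * cdb k g y) x =
        ∫ x in T, ζ x * ((W x : ℂ) * g x + ((W x * F x : ℝ) : ℂ)) := by
      rw [← h4, ← h2, ← h3]
      exact h1
    have i7 : IntegrableOn (fun x => ζ x * ∑ k, ∑ j,
        cd j (fun y => ((W y : ℂ) • (H y)⁻¹) k j * cdb k g y) x) T := by
      refine (int_on hT hζ.cpt hζ.sub ?_ ?_).2.1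
      · exact hζ.smooth.continuous.continuousOn.mul (continuousOn_finsetSum _ fun k _ =>
          continuousOn_finsetSum _ fun j _ => (contDiffOn_cd hT (hAc k j) j).1.continuousOn)
      · intro x hx
        rw [image_eq_zero_of_notMem_tsupport hx, zero_mul]
    have i8 : IntegrableOn (fun x => ζ x * ((W x : ℂ) * g x + ((W x * F x : ℝ) : ℂ))) T := by
      refine (int_on hT hζ.cpt hζ.sub
        (q := fun x => ζ x * ((W x : ℂ) * g x + ((W x * F x : ℝ) : ℂ)))
        (hζ.smooth.continuous.continuousOn.mul hrhs) ?_).2.1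
      intro x hx
      show ζ x * ((W x : ℂ) * g x + ((W x * F x : ℝ) : ℂ)) = 0
      rw [image_eq_zero_of_notMem_tsupport hx, zero_mul]
    simp only [hD, mul_sub]
    rw [integral_sub i7 i8, h5, sub_self]
  -- the strong equation
  have hae : ∀ᵐ x ∂(volume : Measure (Cn n)), x ∈ T → D x = 0 := by
    refine hT.ae_eq_zero_of_integral_contDiff_smul_eq_zero
      (hDc.locallyIntegrableOn hT.measurableSet) fun ψ hψ1 hψ2 hψ3 => ?_
    have hts : tsupport (fun x => (ψ x : ℂ)) = tsupport ψ := by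
      unfold tsupport
      congr 1
      ext x
      simp
    have hζ : TC T (fun x => (ψ x : ℂ)) := by
      refine ⟨Complex.ofRealCLM.contDiff.comp hψ1, ?_, ?_⟩
      · unfold HasCompactSupport
        rw [hts]
        exact hψ2
      · rw [hts]
        exact hψ3
    have h1 := hweak _ hζ
    rw [← h1, setIntegral_eq_integral_of_forall_compl_eq_zero]
    · refine integral_congr_ae (Eventually.of_forall fun x => ?_)
      exact Complex.real_smul
    · intro x hx
      have : ψ x = 0 := image_eq_zero_of_notMem_tsupport fun h => hx (hψ3 h)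
      simp [this]
  have hD0 : ∀ x ∈ T, D x = 0 := by
    have := Measure.eqOn_open_of_ae_eq (μ := (volume : Measure (Cn n))) (U := T)
      (f := D) (g := fun _ => (0 : ℂ)) ((ae_restrict_iff' hT.measurableSet).2 hae) hT hDc
      continuousOn_const
    exact fun x hx => this hx
  intro x hx
  have hd : ∀ {u : Cn n → ℂ}, ContDiffOn ℝ ∞ u T → ∀ y ∈ T, DifferentiableAt ℝ u y := by
    intro u hu y hy
    exact (hu.differentiableOn (by simp)).differentiableAt (hT.mem_nhds hy)
  have hsum : ∑ k, ∑ j, cd j (fun y => ((W y : ℂ) • (H y)⁻¹) k j * cdb k g y) x =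
      (W x : ℂ) * trL H (fun y => (g y).re) x := by
    have h1 : ∀ k j, cd j (fun y => ((W y : ℂ) • (H y)⁻¹) k j * cdb k g y) x =
        (W x : ℂ) * ((H x)⁻¹ k j * cd j (cdb k g) x) +
          cdb k g x * cd j (fun y => (W y : ℂ) * (H y)⁻¹ k j) x := by
      intro k j
      rw [cd_mul (hd (hA k j) x hx) (hd (hcg k) x hx)]
      have e : (fun y => ((W y : ℂ) • (H y)⁻¹) k j) = fun y => (W y : ℂ) * (H y)⁻¹ k j := by
        funext y
        rw [Matrix.smul_apply, smul_eq_mul]
      rw [e, Matrix.smul_apply, smul_eq_mul]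
      ring
    have h2 : ∑ k, ∑ j, cdb k g x * cd j (fun y => (W y : ℂ) * (H y)⁻¹ k j) x = 0 := by
      refine Finset.sum_eq_zero fun k _ => ?_
      rw [← Finset.mul_sum, hDdiv x hx k, mul_zero]
    have h3 : ∀ k j, cd j (cdb k (fun y => (((g y).re : ℝ) : ℂ))) x = cd j (cdb k g) x := by
      intro k j
      have e : cdb k (fun y => (((g y).re : ℝ) : ℂ)) =ᶠ[𝓝 x] cdb k g := by
        filter_upwards [hT.mem_nhds hx] with y hy
        exact cdb_congr hT (fun z hz => (hgv z hz).symm) hy k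
      unfold cd
      rw [e.fderiv_eq]
    simp only [h1, Finset.sum_add_distrib]
    rw [h2, add_zero, Pool.Agent.Helper93.SP.trL_eq, Finset.sum_comm]
    simp only [h3, Finset.mul_sum]
  have h0 := hD0 x hx
  simp only [hD] at h0
  rw [hsum] at h0
  have hW0 : (W x : ℂ) ≠ 0 := by exact_mod_cast (hD1 x hx).2.1.ne'
  have h1 : (W x : ℂ) * (trL H (fun y => (g y).re) x - g x - (F x : ℂ)) = 0 := by
    have e : ((W x * F x : ℝ) : ℂ) = (W x : ℂ) * (F x : ℂ) := by push_cast; ring
    rw [e] at h0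
    linear_combination h0
  have h2 := (mul_eq_zero.1 h1).resolve_left hW0
  have h3 := congrArg Complex.re h2
  simp only [sub_re, ofReal_re, zero_re] at h3
  linarith

end Pool.Agent.Helper46.HS
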