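import Pool.Agent.Helper95.HS.GoalsA

/-! # Packet HS SMV1: the mean value inequality for superharmonic functions in the plane -/

open Complex Metric Set Filter Topology MeasureTheory
open scoped ContDiff

namespace Pool.Agent.Helper46.HS

open Pool.Agent.Helper95.HS

namespace SMV

theorem hasDerivAt_param {G G' : ℝ → ℝ → ℝ} (a b : ℝ)
    (hG : Continuous (Function.uncurry G)) (hG' : Continuous (Function.uncurry G'))
    (h : ∀ r θ, HasDerivAt (fun s => G s θ) (G' r θ) r) (r : ℝ) :
    HasDerivAt (fun s => ∫ θ in a..b, G s θ) (∫ θ in a..b, G' r θ) r := by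
  obtain ⟨C, hC⟩ := (isCompact_Icc.prod isCompact_uIcc).exists_bound_of_continuousOn
    (f := Function.uncurry G') (s := Icc (r - 1) (r + 1) ×ˢ uIcc a b) hG'.continuousOn
  have hc : ∀ s, Continuous (G s) := fun s => hG.comp (by fun_prop : Continuous fun θ : ℝ => (s, θ))
  have hc' : ∀ s, Continuous (G' s) := fun s =>
    hG'.comp (by fun_prop : Continuous fun θ : ℝ => (s, θ))
  refine (intervalIntegral.hasDerivAt_integral_of_dominated_loc_of_deriv_le (μ := volume)
    (bound := fun _ => C) (s := Icc (r - 1) (r + 1)) (F := G) (F' := G')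
    (Icc_mem_nhds (by linarith) (by linarith)) ?_ ?_ ?_ ?_ ?_ ?_).2
  · exact Eventually.of_forall fun s => (hc s).aestronglyMeasurable
  · exact (hc r).intervalIntegrable _ _
  · exact (hc' r).aestronglyMeasurable
  · exact Eventually.of_forall fun θ hθ s hs => hC (s, θ) ⟨hs, uIoc_subset_uIcc hθ⟩
  · exact intervalIntegrable_const
  · exact Eventually.of_forall fun θ _ s _ => h s θ

/-- The unit vector. -/
noncomputable def ev (θ : ℝ) : ℂ := (Real.cos θ : ℂ) + Real.sin θ * I

theorem ev_eq (θ : ℝ) : ev θ = Real.cos θ • (1 : ℂ) + Real.sin θ • I := by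
  simp [ev]

theorem I_mul_ev (θ : ℝ) : I * ev θ = (-Real.sin θ) • (1 : ℂ) + Real.cos θ • I := by
  simp only [ev, real_smul, mul_one]
  push_cast
  linear_combination (Complex.sin θ) * I_mul_I

theorem continuous_ev : Continuous ev := by unfold ev; fun_prop

theorem hasDerivAt_ev (θ : ℝ) : HasDerivAt ev (I * ev θ) θ := by
  have h1 : HasDerivAt (fun t : ℝ => Real.cos t • (1 : ℂ) + Real.sin t • I)
      ((-Real.sin θ) • (1 : ℂ) + Real.cos θ • I) θ :=
    ((Real.hasDerivAt_cos θ).smul_const (1 : ℂ)).add ((Real.hasDerivAt_sin θ).smul_const I)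
  rw [I_mul_ev]
  exact h1.congr_of_eventuallyEq (Eventually.of_forall fun t => ev_eq t)

variable {W : ℂ → ℝ}

theorem mean (hW : ContDiff ℝ ∞ W) (hl : ∀ z ∈ closedBall (0 : ℂ) 2, lap W z ≤ 0) :
    AntitoneOn (fun r : ℝ => ∫ θ in (-Real.pi)..Real.pi, W ((r : ℂ) * ev θ)) (Icc 0 2) := by
  have hd : Differentiable ℝ W := hW.differentiable (by norm_num)
  have h1 : ContDiff ℝ ∞ (fderiv ℝ W) := hW.fderiv_right (by norm_num)
  have hd1 : Differentiable ℝ (fderiv ℝ W) := h1.differentiable (by norm_num)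
  have h2 : ContDiff ℝ ∞ (fderiv ℝ (fderiv ℝ W)) := h1.fderiv_right (by norm_num)
  have hc1 : Continuous (fderiv ℝ W) := h1.continuous
  have hc2 : Continuous (fderiv ℝ (fderiv ℝ W)) := h2.continuous
  have hsym : ∀ z u v, fderiv ℝ (fderiv ℝ W) z u v = fderiv ℝ (fderiv ℝ W) z v u := by
    intro z u v
    exact ((contDiff_infty.1 hW 2).contDiffAt.isSymmSndFDerivAt (by simp)).eq u v
  have hlap : ∀ z, lap W z = fderiv ℝ (fderiv ℝ W) z 1 1 + fderiv ℝ (fderiv ℝ W) z I I := by
    intro z
    have e : ∀ v : ℂ, fderiv ℝ (fun y => fderiv ℝ W y v) z = (fderiv ℝ (fderiv ℝ W) z).flip v := by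
      intro v
      have h3 := (hd1 z).hasFDerivAt.clm_apply (hasFDerivAt_const v z)
      rw [h3.fderiv]
      ext u
      simp
    unfold lap
    rw [e, e]
    rfl
  have hp : ∀ r θ : ℝ, HasDerivAt (fun s : ℝ => (s : ℂ) * ev θ) (ev θ) r := by
    intro r θ
    have h3 : HasDerivAt (fun s : ℝ => (s : ℂ)) 1 r := Complex.ofRealCLM.hasDerivAt
    simpa using h3.mul_const (ev θ)
  have hq : ∀ r θ : ℝ, HasDerivAt (fun t : ℝ => (r : ℂ) * ev t) ((r : ℂ) * (I * ev θ)) θ :=
    fun r θ => (hasDerivAt_ev θ).const_mul _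
  have A1 : ∀ r : ℝ, HasDerivAt (fun s : ℝ => ∫ θ in (-Real.pi)..Real.pi, W ((s : ℂ) * ev θ))
      (∫ θ in (-Real.pi)..Real.pi, fderiv ℝ W ((r : ℂ) * ev θ) (ev θ)) r := by
    intro r
    refine hasDerivAt_param (G := fun s θ => W ((s : ℂ) * ev θ))
      (G' := fun s θ => fderiv ℝ W ((s : ℂ) * ev θ) (ev θ)) _ _ ?_ ?_ ?_ r
    · have : Continuous fun p : ℝ × ℝ => W ((p.1 : ℂ) * ev p.2) :=
        hW.continuous.comp ((Complex.continuous_ofReal.comp continuous_fst).mul
          (continuous_ev.comp continuous_snd))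
      exact this
    · have : Continuous fun p : ℝ × ℝ => fderiv ℝ W ((p.1 : ℂ) * ev p.2) (ev p.2) :=
        (hc1.comp ((Complex.continuous_ofReal.comp continuous_fst).mul
          (continuous_ev.comp continuous_snd))).clm_apply (continuous_ev.comp continuous_snd)
      exact this
    · intro s θ
      exact (hd _).hasFDerivAt.comp_hasDerivAt s (hp s θ)
  have A2 : ∀ r : ℝ, HasDerivAt (fun s : ℝ => ∫ θ in (-Real.pi)..Real.pi,
        fderiv ℝ W ((s : ℂ) * ev θ) (ev θ))
      (∫ θ in (-Real.pi)..Real.pi, fderiv ℝ (fderiv ℝ W) ((r : ℂ) * ev θ) (ev θ) (ev θ)) r := by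
    intro r
    refine hasDerivAt_param (G := fun s θ => fderiv ℝ W ((s : ℂ) * ev θ) (ev θ))
      (G' := fun s θ => fderiv ℝ (fderiv ℝ W) ((s : ℂ) * ev θ) (ev θ) (ev θ)) _ _ ?_ ?_ ?_ r
    · have : Continuous fun p : ℝ × ℝ => fderiv ℝ W ((p.1 : ℂ) * ev p.2) (ev p.2) :=
        (hc1.comp ((Complex.continuous_ofReal.comp continuous_fst).mul
          (continuous_ev.comp continuous_snd))).clm_apply (continuous_ev.comp continuous_snd)
      exact this
    · have : Continuous fun p : ℝ × ℝ =>
          fderiv ℝ (fderiv ℝ W) ((p.1 : ℂ) * ev p.2) (ev p.2) (ev p.2) :=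
        ((hc2.comp ((Complex.continuous_ofReal.comp continuous_fst).mul
          (continuous_ev.comp continuous_snd))).clm_apply
          (continuous_ev.comp continuous_snd)).clm_apply (continuous_ev.comp continuous_snd)
      exact this
    · intro s θ
      have h3 := (hd1 ((s : ℂ) * ev θ)).hasFDerivAt.comp_hasDerivAt s (hp s θ)
      have h4 := h3.clm_apply (hasDerivAt_const s (ev θ))
      simpa using h4
  -- integration over the circle
  have A3 : ∀ r : ℝ, (∫ θ in (-Real.pi)..Real.pi, fderiv ℝ W ((r : ℂ) * ev θ) (ev θ)) =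
      ∫ θ in (-Real.pi)..Real.pi, r * fderiv ℝ (fderiv ℝ W) ((r : ℂ) * ev θ) (I * ev θ)
        (I * ev θ) := by
    intro r
    have hder : ∀ θ : ℝ, HasDerivAt (fun t : ℝ => fderiv ℝ W ((r : ℂ) * ev t) (I * ev t))
        (r * fderiv ℝ (fderiv ℝ W) ((r : ℂ) * ev θ) (I * ev θ) (I * ev θ) -
          fderiv ℝ W ((r : ℂ) * ev θ) (ev θ)) θ := by
      intro θ
      have h3 := (hd1 ((r : ℂ) * ev θ)).hasFDerivAt.comp_hasDerivAt θ (hq r θ)
      have h4 := h3.clm_apply ((hasDerivAt_ev θ).const_mul I)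
      refine h4.congr_deriv ?_
      have e1 : (r : ℂ) * (I * ev θ) = r • (I * ev θ) := by simp
      have e2 : I * (I * ev θ) = -ev θ := by rw [← mul_assoc, I_mul_I]; ring
      simp only [Function.comp]
      rw [e2, map_neg]
      conv_lhs => rw [show fderiv ℝ (fderiv ℝ W) ((r : ℂ) * ev θ) ((r : ℂ) * (I * ev θ)) =
        r • fderiv ℝ (fderiv ℝ W) ((r : ℂ) * ev θ) (I * ev θ) by rw [e1, map_smul]]
      rw [ContinuousLinearMap.smul_apply, smul_eq_mul]
      ring
    have hcont1 : Continuous fun θ : ℝ =>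
        r * fderiv ℝ (fderiv ℝ W) ((r : ℂ) * ev θ) (I * ev θ) (I * ev θ) := by
      refine continuous_const.mul ?_
      exact ((hc2.comp (continuous_const.mul continuous_ev)).clm_apply
        (continuous_const.mul continuous_ev)).clm_apply (continuous_const.mul continuous_ev)
    have hcont2 : Continuous fun θ : ℝ => fderiv ℝ W ((r : ℂ) * ev θ) (ev θ) :=
      (hc1.comp (continuous_const.mul continuous_ev)).clm_apply continuous_ev
    have h5 := intervalIntegral.integral_eq_sub_of_hasDerivAt (a := -Real.pi) (b := Real.pi)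
      (fun θ _ => hder θ) ((hcont1.sub hcont2).intervalIntegrable _ _)
    have h6 : ev Real.pi = ev (-Real.pi) := by simp [ev]
    rw [h6, sub_self, intervalIntegral.integral_sub (hcont1.intervalIntegrable _ _)
      (hcont2.intervalIntegrable _ _)] at h5
    linarith
  have hpi : -Real.pi ≤ Real.pi := by linarith [Real.pi_pos]
  -- the sign of the derivative
  have hP : ∀ r ∈ Icc (0 : ℝ) 2,
      r * (∫ θ in (-Real.pi)..Real.pi, fderiv ℝ W ((r : ℂ) * ev θ) (ev θ)) ≤ 0 := by
    have hder : ∀ r : ℝ, HasDerivAt (fun s : ℝ => s * ∫ θ in (-Real.pi)..Real.pi,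
        fderiv ℝ W ((s : ℂ) * ev θ) (ev θ))
        (1 * (∫ θ in (-Real.pi)..Real.pi, fderiv ℝ W ((r : ℂ) * ev θ) (ev θ)) +
          r * ∫ θ in (-Real.pi)..Real.pi, fderiv ℝ (fderiv ℝ W) ((r : ℂ) * ev θ) (ev θ) (ev θ))
        r := fun r => (hasDerivAt_id r).mul (A2 r)
    have hneg : ∀ r ∈ Icc (0 : ℝ) 2,
        (1 * (∫ θ in (-Real.pi)..Real.pi, fderiv ℝ W ((r : ℂ) * ev θ) (ev θ)) +
          r * ∫ θ in (-Real.pi)..Real.pi, fderiv ℝ (fderiv ℝ W) ((r : ℂ) * ev θ) (ev θ) (ev θ)) ≤
        0 := by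
      intro r hr
      have hcont1 : Continuous fun θ : ℝ =>
          r * fderiv ℝ (fderiv ℝ W) ((r : ℂ) * ev θ) (I * ev θ) (I * ev θ) := by
        refine continuous_const.mul ?_
        exact ((hc2.comp (continuous_const.mul continuous_ev)).clm_apply
          (continuous_const.mul continuous_ev)).clm_apply (continuous_const.mul continuous_ev)
      have hcont2 : Continuous fun θ : ℝ =>
          r * fderiv ℝ (fderiv ℝ W) ((r : ℂ) * ev θ) (ev θ) (ev θ) := by
        refine continuous_const.mul ?_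
        exact ((hc2.comp (continuous_const.mul continuous_ev)).clm_apply
          continuous_ev).clm_apply continuous_ev
      rw [one_mul, A3, ← intervalIntegral.integral_const_mul,
        ← intervalIntegral.integral_add (hcont1.intervalIntegrable _ _)
        (hcont2.intervalIntegrable _ _)]
      have h7 : ∀ θ : ℝ, r * fderiv ℝ (fderiv ℝ W) ((r : ℂ) * ev θ) (I * ev θ) (I * ev θ) +
          r * fderiv ℝ (fderiv ℝ W) ((r : ℂ) * ev θ) (ev θ) (ev θ) =
          r * lap W ((r : ℂ) * ev θ) := by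
        intro θ
        rw [hlap]
        set B := fderiv ℝ (fderiv ℝ W) ((r : ℂ) * ev θ) with hB
        have hBs : B I 1 = B 1 I := hsym _ _ _
        rw [I_mul_ev, ev_eq]
        simp only [map_add, map_smul, ContinuousLinearMap.add_apply,
          ContinuousLinearMap.smul_apply, smul_eq_mul]
        rw [hBs]
        have hcs := Real.sin_sq_add_cos_sq θ
        linear_combination (r * (B 1 1 + B I I)) * hcs
      simp only [h7]
      have h8 : 0 ≤ ∫ θ in (-Real.pi)..Real.pi, -(r * lap W ((r : ℂ) * ev θ)) := by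
        apply intervalIntegral.integral_nonneg hpi
        intro θ _
        have h9 : lap W ((r : ℂ) * ev θ) ≤ 0 := by
          apply hl
          rw [mem_closedBall_zero_iff, norm_mul, Complex.norm_real, Real.norm_of_nonneg hr.1]
          have h10 : ‖ev θ‖ = 1 := by
            have : ev θ = Complex.exp (θ * I) := by
              rw [Complex.exp_mul_I, ev, Complex.ofReal_cos, Complex.ofReal_sin]
            rw [this, Complex.norm_exp_ofReal_mul_I]
          rw [h10, mul_one]
          exact hr.2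
        have := mul_nonneg hr.1 (neg_nonneg.2 h9)
        linarith
      rw [intervalIntegral.integral_neg] at h8
      linarith
    have hanti : AntitoneOn (fun s : ℝ => s * ∫ θ in (-Real.pi)..Real.pi,
        fderiv ℝ W ((s : ℂ) * ev θ) (ev θ)) (Icc 0 2) := by
      apply antitoneOn_of_deriv_nonpos (convex_Icc 0 2)
      · exact fun r _ => (hder r).continuousAt.continuousWithinAt
      · exact fun r _ => (hder r).differentiableAt.differentiableWithinAt
      · intro r hr
        rw [(hder r).deriv]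
        exact hneg r (interior_subset hr)
    intro r hr
    have := hanti (left_mem_Icc.2 (by norm_num)) hr hr.1
    simpa using this
  apply antitoneOn_of_deriv_nonpos (convex_Icc 0 2)
  · exact fun r _ => (A1 r).continuousAt.continuousWithinAt
  · exact fun r _ => (A1 r).differentiableAt.differentiableWithinAt
  · intro r hr
    rw [interior_Icc] at hr
    rw [(A1 r).deriv]
    have h3 := hP r (Ioo_subset_Icc_self hr)
    by_contra hcon
    push Not at hcon
    have := mul_pos hr.1 hcon
    linarith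

theorem global (hW : ContDiff ℝ ∞ W) (hl : ∀ z ∈ closedBall (0 : ℂ) 2, lap W z ≤ 0) :
    ∫ z in ball (0 : ℂ) 2, W z ≤ 4 * Real.pi * W 0 := by
  have hpi : -Real.pi ≤ Real.pi := by linarith [Real.pi_pos]
  have hc : Continuous fun p : ℝ × ℝ => W ((p.1 : ℂ) * ev p.2) :=
    hW.continuous.comp ((Complex.continuous_ofReal.comp continuous_fst).mul
      (continuous_ev.comp continuous_snd))
  have step1 : ∫ z in ball (0 : ℂ) 2, W z =
      ∫ p in Ioo (0 : ℝ) 2 ×ˢ Ioo (-Real.pi) Real.pi, p.1 * W ((p.1 : ℂ) * ev p.2) := by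
    rw [← integral_indicator Metric.isOpen_ball.measurableSet,
      ← Complex.integral_comp_polarCoord_symm]
    have h2 : polarCoord.target = Ioi (0 : ℝ) ×ˢ Ioo (-Real.pi) Real.pi := rfl
    rw [h2]
    have h3 : ∀ p ∈ Ioi (0 : ℝ) ×ˢ Ioo (-Real.pi) Real.pi,
        p.1 • (ball (0 : ℂ) 2).indicator W (Complex.polarCoord.symm p) =
        (Ioo (0 : ℝ) 2 ×ˢ (univ : Set ℝ)).indicator
          (fun p : ℝ × ℝ => p.1 * W ((p.1 : ℂ) * ev p.2)) p := by
      rintro ⟨r, θ⟩ ⟨hr, -⟩
      have hr0 : 0 < r := hr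
      rw [Complex.polarCoord_symm_apply]
      have hev : ((r : ℝ) : ℂ) * ((Real.cos θ : ℂ) + (Real.sin θ : ℂ) * I) = (r : ℂ) * ev θ := rfl
      simp only [hev]
      have hn : ‖(r : ℂ) * ev θ‖ = r := by
        have : ev θ = Complex.exp (θ * I) := by
          rw [Complex.exp_mul_I, ev, Complex.ofReal_cos, Complex.ofReal_sin]
        rw [this, norm_mul, Complex.norm_exp_ofReal_mul_I, Complex.norm_real,
          Real.norm_of_nonneg hr0.le, mul_one]
      by_cases h1 : r < 2
      · rw [indicator_of_mem (by rw [mem_ball_zero_iff, hn]; exact h1),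
          indicator_of_mem (show ((r, θ) : ℝ × ℝ) ∈ Ioo (0 : ℝ) 2 ×ˢ (univ : Set ℝ) from
          ⟨⟨hr0, h1⟩, mem_univ _⟩), smul_eq_mul]
      · rw [indicator_of_notMem (by rw [mem_ball_zero_iff, hn]; exact h1),
          indicator_of_notMem (show ((r, θ) : ℝ × ℝ) ∉ Ioo (0 : ℝ) 2 ×ˢ (univ : Set ℝ) from
          fun hm => h1 hm.1.2), smul_zero]
    rw [setIntegral_congr_fun (measurableSet_Ioi.prod measurableSet_Ioo) h3,
      setIntegral_indicator (measurableSet_Ioo.prod MeasurableSet.univ)]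
    congr 2
    ext ⟨r, θ⟩
    simp only [mem_inter_iff, mem_prod, mem_Ioi, mem_Ioo, mem_univ, and_true]
    constructor
    · rintro ⟨⟨h1, h2⟩, h3⟩
      exact ⟨h3, h2⟩
    · rintro ⟨h1, h2⟩
      exact ⟨⟨h1.1, h2⟩, h1⟩
  have hint : IntegrableOn (fun p : ℝ × ℝ => p.1 * W ((p.1 : ℂ) * ev p.2))
      (Ioo (0 : ℝ) 2 ×ˢ Ioo (-Real.pi) Real.pi) := by
    have : Continuous (fun p : ℝ × ℝ => p.1 * W ((p.1 : ℂ) * ev p.2)) := continuous_fst.mul hc
    refine (this.continuousOn.integrableOn_compact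
      (isCompact_Icc.prod isCompact_Icc) (K := Icc (0 : ℝ) 2 ×ˢ Icc (-Real.pi) Real.pi)).mono_set ?_
    exact prod_mono Ioo_subset_Icc_self Ioo_subset_Icc_self
  have step2 : ∫ p in Ioo (0 : ℝ) 2 ×ˢ Ioo (-Real.pi) Real.pi, p.1 * W ((p.1 : ℂ) * ev p.2) =
      ∫ r in (0 : ℝ)..2, r * ∫ θ in (-Real.pi)..Real.pi, W ((r : ℂ) * ev θ) := by
    rw [Measure.volume_eq_prod, setIntegral_prod _ hint,
      intervalIntegral.integral_of_le (by norm_num), integral_Ioc_eq_integral_Ioo]
    apply setIntegral_congr_fun measurableSet_Ioo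
    intro r _
    simp only
    rw [integral_const_mul, intervalIntegral.integral_of_le hpi, integral_Ioc_eq_integral_Ioo]
  rw [step1, step2]
  have hanti := mean hW hl
  have hcN : Continuous fun r : ℝ => ∫ θ in (-Real.pi)..Real.pi, W ((r : ℂ) * ev θ) :=
    intervalIntegral.continuous_parametric_intervalIntegral_of_continuous' hc _ _
  have h0 : (∫ θ in (-Real.pi)..Real.pi, W (((0 : ℝ) : ℂ) * ev θ)) = 2 * Real.pi * W 0 := by
    simp only [Complex.ofReal_zero, zero_mul]
    rw [intervalIntegral.integral_const, smul_eq_mul]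
    ring
  calc (∫ r in (0 : ℝ)..2, r * ∫ θ in (-Real.pi)..Real.pi, W ((r : ℂ) * ev θ)) ≤
      ∫ r in (0 : ℝ)..2, r * (2 * Real.pi * W 0) := by
        apply intervalIntegral.integral_mono_on (by norm_num)
          ((continuous_id.mul hcN).intervalIntegrable _ _)
          ((continuous_id.mul continuous_const).intervalIntegrable _ _)
        intro r hr
        apply mul_le_mul_of_nonneg_left _ hr.1
        rw [← h0]
        exact hanti (left_mem_Icc.2 (by norm_num)) hr hr.1
    _ = 4 * Real.pi * W 0 := by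
        rw [intervalIntegral.integral_mul_const]
        simp; ring

end SMV

theorem smv1 : S_SMV1 := by
  intro U w hU hsub hw hl
  obtain ⟨ε, hε, hεU⟩ := (isCompact_closedBall (0 : ℂ) 2).exists_cthickening_subset_open hU hsub
  rw [cthickening_closedBall hε.le (by norm_num)] at hεU
  let b : ContDiffBump (0 : ℂ) := ⟨2 + ε / 2, 2 + ε, by linarith, by linarith⟩
  let W : ℂ → ℝ := fun z => b z * w z
  have hWeq : ∀ z ∈ ball (0 : ℂ) (2 + ε / 2), W z = w z := by
    intro z hz
    have : b z = 1 := b.one_of_mem_closedBall (ball_subset_closedBall hz)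
    simp [W, this]
  have hW : ContDiff ℝ ∞ W := by
    rw [contDiff_iff_contDiffAt]
    intro z
    by_cases hz : z ∈ U
    · exact b.contDiff.contDiffAt.mul (hw.contDiffAt (hU.mem_nhds hz))
    · have hz' : z ∉ tsupport b := by
        rw [b.tsupport_eq]
        intro h
        apply hz
        apply hεU
        rw [add_comm]; exact h
      have h1 : W =ᶠ[𝓝 z] fun _ => 0 := by
        have h2 : (tsupport b)ᶜ ∈ 𝓝 z := (isClosed_tsupport _).isOpen_compl.mem_nhds hz'
        filter_upwards [h2] with y hy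
        have : b y = 0 := image_eq_zero_of_notMem_tsupport hy
        simp [W, this]
      exact contDiffAt_const.congr_of_eventuallyEq h1
  have hWev : ∀ z ∈ closedBall (0 : ℂ) 2, W =ᶠ[𝓝 z] w := by
    intro z hz
    have h1 : ball (0 : ℂ) (2 + ε / 2) ∈ 𝓝 z := by
      apply isOpen_ball.mem_nhds
      rw [mem_ball]
      rw [mem_closedBall] at hz
      linarith
    filter_upwards [h1] with y hy using hWeq y hy
  have hlap : ∀ z ∈ closedBall (0 : ℂ) 2, lap W z ≤ 0 := by
    intro z hz
    have h1 := hWev z hz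
    have h2 : ∀ v : ℂ, (fun y => fderiv ℝ W y v) =ᶠ[𝓝 z] fun y => fderiv ℝ w y v := by
      intro v
      filter_upwards [h1.fderiv (𝕜 := ℝ)] with y hy
      rw [hy]
    have h3 : lap W z = lap w z := by
      unfold lap
      rw [(h2 1).fderiv_eq, (h2 I).fderiv_eq]
    rw [h3]
    exact hl z (hsub hz)
  have h := SMV.global hW hlap
  have e1 : ∫ z in ball (0 : ℂ) 2, w z = ∫ z in ball (0 : ℂ) 2, W z := by
    apply setIntegral_congr_fun measurableSet_ball
    intro z hz
    exact ((hWev z (ball_subset_closedBall hz)).self_of_nhds).symm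
  have e2 : W 0 = w 0 := (hWev 0 (by simp)).self_of_nhds
  rw [e1, ← e2]
  exact h

end Pool.Agent.Helper46.HS
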